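import Pool.Agent.W207.SW.SpecE

/-!
# SW-SMLE: the truncated transform is small inside the gap, even version
-/

set_option autoImplicit false
set_option maxHeartbeats 400000

open Complex Filter Topology Set MeasureTheory
open scoped BigOperators

namespace W975.SW

open W207.SW

/-- integrability below `R` -/
theorem int_Ioc {E : ℝ → ℝ} {C0 : ℝ} (hC0 : 0 < C0) (hE : Gr E C0) (a b : ℝ) (ha : 0 ≤ a) :
    IntegrableOn E (Ioc a b) ∧ ∀ᵐ u ∂(volume.restrict (Ioc a b)), |E u| ≤ C0 * (1 + b) := by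
  have hsub : Ioc a b ⊆ Ioi (0 : ℝ) := fun u hu => lt_of_le_of_lt ha hu.1
  have h1 : ∀ᵐ u ∂(volume.restrict (Ioc a b)), |E u| ≤ C0 * (1 + b) := by
    have h2 := ae_restrict_of_ae_restrict_of_subset hsub hE.2
    filter_upwards [h2, ae_restrict_mem measurableSet_Ioc] with u hu hm
    refine hu.trans (mul_le_mul_of_nonneg_left ?_ hC0.le)
    linarith [hm.2]
  refine ⟨Measure.integrableOn_of_bounded (M := C0 * (1 + b)) (by simp)
    hE.1.aestronglyMeasurable ?_, h1⟩
  filter_upwards [h1] with u hu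
  rw [Real.norm_eq_abs]
  exact hu

theorem int_abs {E : ℝ → ℝ} {C0 : ℝ} (hC0 : 0 < C0) (hE : Gr E C0) (R : ℝ) (hR : 1 ≤ R) :
    ∫ u in Ioc 0 R, |E u| ≤ C0 * (1 + R) ^ 2 := by
  obtain ⟨h1, h2⟩ := int_Ioc hC0 hE 0 R (le_refl _)
  have h3 : ∫ u in Ioc 0 R, |E u| ≤ ∫ _ in Ioc (0 : ℝ) R, C0 * (1 + R) := by
    refine integral_mono_ae h1.abs (integrable_const _) h2
  refine h3.trans ?_
  rw [setIntegral_const, smul_eq_mul, Real.volume_real_Ioc_of_le (by linarith)]
  nlinarith [mul_pos hC0 (by linarith : (0 : ℝ) < 1 + R)]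

theorem main (h1 : S_EXTE) (h2 : S_BLC) (h3 : S_KG) : S_SMLE := by
  intro C0 C δ ε Λ hC0 hC hδ hε hΛ
  obtain ⟨K1, κ1, hK1, hκ1, hKG⟩ := h3 Λ δ hΛ hδ
  obtain ⟨κ, hκ⟩ : ∃ κ, κ = min κ1 (ε / Λ) := ⟨_, rfl⟩
  have hκ0 : 0 < κ := by
    rw [hκ]
    exact lt_min hκ1 (by positivity)
  have hκa : κ ≤ κ1 := by
    rw [hκ]
    exact min_le_left _ _
  have hκb : κ ≤ ε / Λ := by
    rw [hκ]
    exact min_le_right _ _
  refine ⟨C0 * Real.exp (16 * κ / δ) + (K1 * C0 + K1 * C + K1 * C0 * Real.pi), κ, 5,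
    by positivity, hκ0, ?_⟩
  intro E R hE hgap hR hole ξ hξ
  obtain ⟨η, hη⟩ : ∃ η, η = Λ - |ξ| := ⟨_, rfl⟩
  have hη0 : 0 < η := by rw [hη]; linarith
  have hηΛ : η ≤ Λ := by rw [hη]; linarith [abs_nonneg ξ]
  rw [← hη]
  have hR0 : 0 < R := by linarith
  have hR1 : 1 ≤ 1 + R := by linarith
  have hpi := Real.pi_pos
  have hint := int_abs hC0 hE R hR
  obtain ⟨hEi, -⟩ := int_Ioc hC0 hE 0 R (le_refl _)
  have hffe : ffe E R ξ = ∫ u in Ioc 0 R, E u * Real.cos (2 * Real.pi * ξ * u) := by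
    unfold ffe
    rw [intervalIntegral.integral_of_le hR0.le]
  have hcosc : Continuous fun u : ℝ => Real.cos (2 * Real.pi * ξ * u) := by fun_prop
  rcases lt_or_ge (η * δ * R) 16 with hcase | hcase
  · -- the trivial bound
    have hb : |ffe E R ξ| ≤ C0 * (1 + R) ^ 2 := by
      rw [hffe, ← Real.norm_eq_abs]
      refine (norm_integral_le_of_norm_le hEi.abs (Eventually.of_forall fun u => ?_)).trans hint
      rw [norm_mul, Real.norm_eq_abs, Real.norm_eq_abs]
      exact mul_le_of_le_one_right (abs_nonneg _) (Real.abs_cos_le_one _)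
    have he : 1 ≤ Real.exp (16 * κ / δ) * Real.exp (-(κ * η * R)) := by
      rw [← Real.exp_add]
      apply Real.one_le_exp
      have h4 : κ * η * R ≤ 16 * κ / δ := by
        rw [le_div_iff₀ hδ]
        nlinarith
      linarith
    have hp : (1 + R) ^ 2 ≤ (1 + R) ^ 5 := pow_le_pow_right₀ hR1 (by norm_num)
    have hee := Real.exp_pos (-(κ * η * R))
    calc |ffe E R ξ| ≤ C0 * (1 + R) ^ 2 := hb
      _ ≤ C0 * (1 + R) ^ 5 := mul_le_mul_of_nonneg_left hp hC0.le
      _ ≤ C0 * (1 + R) ^ 5 * (Real.exp (16 * κ / δ) * Real.exp (-(κ * η * R))) :=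
          le_mul_of_one_le_right (by positivity) he
      _ = C0 * Real.exp (16 * κ / δ) * (1 + R) ^ 5 * Real.exp (-(κ * η * R)) := by ring
      _ ≤ _ := by
          gcongr
          have : 0 ≤ K1 * C0 + K1 * C + K1 * C0 * Real.pi := by positivity
          linarith
  · obtain ⟨g, g', hBL, hder, -, hgb, hg1, hg2, K', hK'⟩ := hKG η R hη0 hηΛ hR hcase
    obtain ⟨e1, he1⟩ : ∃ e1, e1 = Real.exp (-(κ1 * η * R)) := ⟨_, rfl⟩
    obtain ⟨e0, he0⟩ : ∃ e0, e0 = Real.exp (-(κ * η * R)) := ⟨_, rfl⟩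
    have he10 : e1 ≤ e0 := by
      rw [he1, he0]
      apply Real.exp_le_exp.2
      have : κ * (η * R) ≤ κ1 * (η * R) := mul_le_mul_of_nonneg_right hκa (by positivity)
      linarith
    have he00 : 0 < e0 := by rw [he0]; exact Real.exp_pos _
    have he1p : 0 < e1 := by rw [he1]; exact Real.exp_pos _
    have hee : Real.exp (-(ε * R)) ≤ e0 := by
      rw [he0]
      apply Real.exp_le_exp.2
      have h4 : κ * η ≤ ε := by
        calc κ * η ≤ (ε / Λ) * Λ := by gcongr
          _ = ε := by field_simp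
      have : κ * η * R ≤ ε * R := mul_le_mul_of_nonneg_right h4 hR0.le
      linarith
    rw [← he1] at hg1 hg2
    rw [← he0]
    have hgc : Continuous g := continuous_iff_continuousAt.2 fun u => (hder u).continuousAt
    have hhc : Continuous fun u => g u * Real.cos (2 * Real.pi * ξ * u) := hgc.mul hcosc
    have hab : ∀ u, |g u * Real.cos (2 * Real.pi * ξ * u)| ≤ |g u| := fun u => by
      rw [abs_mul]
      exact mul_le_of_le_one_right (abs_nonneg _) (Real.abs_cos_le_one _)
    have hzero := h1 E (fun u => g u * Real.cos (2 * Real.pi * ξ * u)) C0 Λ (η / 2 + |ξ|) K' hE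
      hgap (by linarith [abs_nonneg ξ]) (by linarith)
      (h2 (η / 2) ξ g (by linarith) hBL) (fun u => (hab u).trans (hK' u).1)
    have hK'0 : 0 ≤ K' := by
      have h4 := (abs_nonneg _).trans (hK' 0).1
      simpa using h4
    -- integrability
    have hFm : ∀ s : Set ℝ, AEStronglyMeasurable
        (fun u => g u * Real.cos (2 * Real.pi * ξ * u) * E u) (volume.restrict s) := fun s =>
      (hhc.measurable.mul hE.1).aestronglyMeasurable
    have hquad : ∀ u : ℝ, 0 ≤ u → (1 + u) / (1 + u) ^ 3 ≤ (1 + u ^ 2)⁻¹ := by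
      intro u hu
      have h4 : (1 + u) / (1 + u) ^ 3 = ((1 + u) ^ 2)⁻¹ := by
        field_simp
      rw [h4]
      apply inv_anti₀ (by positivity)
      nlinarith
    have hFi : IntegrableOn (fun u => g u * Real.cos (2 * Real.pi * ξ * u) * E u)
        (Ioi (0 : ℝ)) := by
      refine Integrable.mono' ((integrable_inv_one_add_sq.const_mul (K' * C0)).integrableOn)
        (hFm _) ?_
      filter_upwards [hE.2, ae_restrict_mem measurableSet_Ioi] with u hu hm
      have hu0 : (0 : ℝ) < u := hm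
      rw [norm_mul, Real.norm_eq_abs, Real.norm_eq_abs]
      have h4 := (hab u).trans (hK' u).1
      rw [abs_of_pos hu0] at h4
      calc |g u * Real.cos (2 * Real.pi * ξ * u)| * |E u|
          ≤ K' / (1 + u) ^ 3 * (C0 * (1 + u)) := by gcongr
        _ = K' * C0 * ((1 + u) / (1 + u) ^ 3) := by ring
        _ ≤ K' * C0 * (1 + u ^ 2)⁻¹ := by
            have := hquad u hu0.le
            gcongr
    obtain ⟨S, hS⟩ : ∃ S, S = (1 + δ) * R := ⟨_, rfl⟩
    have hRS : R ≤ S := by
      rw [hS]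
      nlinarith
    have hS0 : 0 < S := by linarith
    have hsplit : ∫ u in Ioi (0 : ℝ), g u * Real.cos (2 * Real.pi * ξ * u) * E u =
        (∫ u in Ioc 0 R, g u * Real.cos (2 * Real.pi * ξ * u) * E u) +
        ((∫ u in Ioc R S, g u * Real.cos (2 * Real.pi * ξ * u) * E u) +
          ∫ u in Ioi S, g u * Real.cos (2 * Real.pi * ξ * u) * E u) := by
      rw [← setIntegral_union (Set.Ioc_disjoint_Ioi (le_refl S)) measurableSet_Ioi
        (hFi.mono_set fun u hu => lt_trans hR0 hu.1)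
        (hFi.mono_set fun u hu => lt_trans hS0 hu), Ioc_union_Ioi_eq_Ioi hRS,
        ← setIntegral_union (Set.Ioc_disjoint_Ioi (le_refl R)) measurableSet_Ioi
        (hFi.mono_set fun u hu => hu.1)
        (hFi.mono_set fun u hu => lt_trans hR0 hu), Ioc_union_Ioi_eq_Ioi hR0.le]
    rw [hsplit] at hzero
    -- first part
    have hcosi : IntegrableOn (fun u => E u * Real.cos (2 * Real.pi * ξ * u)) (Ioc 0 R) := by
      refine Integrable.mono' hEi.abs (hE.1.mul hcosc.measurable).aestronglyMeasurable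
        (Eventually.of_forall fun u => ?_)
      rw [norm_mul, Real.norm_eq_abs, Real.norm_eq_abs]
      exact mul_le_of_le_one_right (abs_nonneg _) (Real.abs_cos_le_one _)
    have hp1 : |(∫ u in Ioc 0 R, g u * Real.cos (2 * Real.pi * ξ * u) * E u) - ffe E R ξ| ≤
        K1 * (1 + R) * e1 * (C0 * (1 + R) ^ 2) := by
      rw [hffe, ← integral_sub (hFi.mono_set fun u hu => hu.1) hcosi, ← Real.norm_eq_abs]
      refine (norm_integral_le_of_norm_le (hEi.abs.const_mul (K1 * (1 + R) * e1)) ?_).trans ?_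
      · filter_upwards [ae_restrict_mem measurableSet_Ioc] with u hu
        have h4 := (hg1 u hu.1.le hu.2).1
        have h5 : g u * Real.cos (2 * Real.pi * ξ * u) * E u -
            E u * Real.cos (2 * Real.pi * ξ * u) =
            (g u - 1) * (Real.cos (2 * Real.pi * ξ * u) * E u) := by ring
        rw [h5, norm_mul, norm_mul, Real.norm_eq_abs, Real.norm_eq_abs, Real.norm_eq_abs]
        have h6 : |Real.cos (2 * Real.pi * ξ * u)| * |E u| ≤ |E u| :=
          mul_le_of_le_one_left (abs_nonneg _) (Real.abs_cos_le_one _)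
        exact mul_le_mul h4 h6 (by positivity) (by positivity)
      · rw [integral_const_mul]
        exact mul_le_mul_of_nonneg_left hint (by positivity)
    -- second part
    obtain ⟨hEi2, -⟩ := int_Ioc hC0 hE R S hR0.le
    have hp2 : |∫ u in Ioc R S, g u * Real.cos (2 * Real.pi * ξ * u) * E u| ≤
        K1 * (C * e0) := by
      rw [← Real.norm_eq_abs]
      refine (norm_integral_le_of_norm_le (hEi2.abs.const_mul K1) ?_).trans ?_
      · refine Eventually.of_forall fun u => ?_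
        rw [norm_mul, Real.norm_eq_abs, Real.norm_eq_abs]
        exact mul_le_mul_of_nonneg_right ((hab u).trans (hgb u).1) (abs_nonneg _)
      · rw [integral_const_mul]
        refine mul_le_mul_of_nonneg_left ?_ hK1.le
        rw [integral_Ioc_eq_integral_Ioo, hS]
        exact hole.trans (mul_le_mul_of_nonneg_left hee hC.le)
    -- third part
    have hp3 : |∫ u in Ioi S, g u * Real.cos (2 * Real.pi * ξ * u) * E u| ≤
        K1 * (1 + R) ^ 5 * e1 * C0 * Real.pi := by
      rw [← Real.norm_eq_abs]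
      refine (norm_integral_le_of_norm_le
        ((integrable_inv_one_add_sq.const_mul (K1 * (1 + R) ^ 5 * e1 * C0)).integrableOn
          (s := Ioi S)) ?_).trans ?_
      · have hsub : Ioi S ⊆ Ioi (0 : ℝ) := fun u hu => lt_trans hS0 hu
        filter_upwards [ae_restrict_of_ae_restrict_of_subset hsub hE.2,
          ae_restrict_mem measurableSet_Ioi] with u hu hm
        have hm' : S < u := hm
        have hu0 : 0 < u := lt_trans hS0 hm'
        have h4 := (hg2 u (by rw [← hS]; exact hm'.le)).1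
        rw [norm_mul, Real.norm_eq_abs, Real.norm_eq_abs]
        calc |g u * Real.cos (2 * Real.pi * ξ * u)| * |E u|
            ≤ K1 * (1 + R) ^ 5 * e1 / (1 + u) ^ 3 * (C0 * (1 + u)) := by
              have := (hab u).trans h4
              gcongr
          _ = K1 * (1 + R) ^ 5 * e1 * C0 * ((1 + u) / (1 + u) ^ 3) := by ring
          _ ≤ K1 * (1 + R) ^ 5 * e1 * C0 * (1 + u ^ 2)⁻¹ := by
              have := hquad u hu0.le
              gcongr
      · rw [integral_const_mul]
        refine mul_le_mul_of_nonneg_left ?_ (by positivity)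
        rw [← integral_univ_inv_one_add_sq]
        exact setIntegral_le_integral integrable_inv_one_add_sq
          (Eventually.of_forall fun u => by positivity)
    -- conclusion
    have hfin : |ffe E R ξ| ≤ K1 * (1 + R) * e1 * (C0 * (1 + R) ^ 2) + K1 * (C * e0) +
        K1 * (1 + R) ^ 5 * e1 * C0 * Real.pi := by
      rw [abs_le] at hp1 hp2 hp3 ⊢
      constructor
      · linarith [hp1.1, hp1.2, hp2.1, hp2.2, hp3.1, hp3.2]
      · linarith [hp1.1, hp1.2, hp2.1, hp2.2, hp3.1, hp3.2]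
    refine hfin.trans ?_
    have hq1 : (1 + R) ^ 3 ≤ (1 + R) ^ 5 := pow_le_pow_right₀ hR1 (by norm_num)
    have hq2 : 1 ≤ (1 + R) ^ 5 := one_le_pow₀ hR1
    have t1 : K1 * (1 + R) * e1 * (C0 * (1 + R) ^ 2) ≤ K1 * C0 * (1 + R) ^ 5 * e0 := by
      calc K1 * (1 + R) * e1 * (C0 * (1 + R) ^ 2) = K1 * C0 * (1 + R) ^ 3 * e1 := by ring
        _ ≤ K1 * C0 * (1 + R) ^ 5 * e0 := by gcongr
    have t2 : K1 * (C * e0) ≤ K1 * C * (1 + R) ^ 5 * e0 := by
      calc K1 * (C * e0) = K1 * C * 1 * e0 := by ring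
        _ ≤ K1 * C * (1 + R) ^ 5 * e0 := by gcongr
    have t3 : K1 * (1 + R) ^ 5 * e1 * C0 * Real.pi ≤ K1 * C0 * Real.pi * (1 + R) ^ 5 * e0 := by
      calc K1 * (1 + R) ^ 5 * e1 * C0 * Real.pi = K1 * C0 * Real.pi * (1 + R) ^ 5 * e1 := by ring
        _ ≤ _ := by gcongr
    have t4 : 0 ≤ C0 * Real.exp (16 * κ / δ) * (1 + R) ^ 5 * e0 := by positivity
    calc _ ≤ K1 * C0 * (1 + R) ^ 5 * e0 + K1 * C * (1 + R) ^ 5 * e0 +
          K1 * C0 * Real.pi * (1 + R) ^ 5 * e0 + C0 * Real.exp (16 * κ / δ) * (1 + R) ^ 5 * e0 := by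
          linarith
      _ = _ := by ring

end W975.SW
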